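import Pool.Agent.H495.Sun.Z7588.C00
import Pool.Agent.H495.Sun.Z7588.C01
import Pool.Agent.H495.Sun.Z7588.C02
import Pool.Agent.H495.Sun.Z7588.C03
import Pool.Agent.H495.Sun.Z7588.C04
import Pool.Agent.H495.Sun.Z7588.C05
import Pool.Agent.H495.Sun.Z7588.C06
import Pool.Agent.H495.Sun.Z7588.C07
import Pool.Agent.H495.Sun.Z7588.C08
import Pool.Agent.H495.Sun.Z7588.C09
import Pool.Agent.H495.Sun.Z7588.C10
import Pool.Agent.H495.Sun.Z7588.C11
import Pool.Agent.H495.Sun.Z7588.C12
import Pool.Agent.H495.Sun.Z7588.C13
import Pool.Agent.H495.Sun.Z7588.C14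
import Pool.Agent.H495.Sun.Z7588.C15
import Pool.Agent.H495.Sun.Z7588.C16
import Pool.Agent.H495.Sun.Z7588.C17
import Pool.Agent.H495.Sun.Z7588.C18
import Pool.Agent.H495.Sun.Z7588.C19
import Pool.Agent.H495.Sun.Z7588.C20
import Pool.Agent.H495.Sun.Z7588.C21
import Pool.Agent.H495.Sun.Z7588.C22
import Pool.Agent.H495.Sun.Z7588.C23
import Pool.Agent.H495.Sun.Z7588.C24
import Pool.Agent.H495.Sun.Z7588.C25
import Pool.Agent.H495.Sun.Z7588.C26
import Pool.Agent.H495.Sun.Z7588.C27
import Pool.Agent.H495.Sun.Z7588.C28
import Pool.Agent.H495.Sun.Z7588.C29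
import Pool.Agent.H495.Sun.Z7588.C30
import Pool.Agent.H495.Sun.Z7588.C31
import Pool.Agent.H495.Sun.Z7588.C32
import Pool.Agent.H495.Sun.Z7588.C33
import Pool.Agent.H495.Sun.Z7588.C34
import Pool.Agent.H495.Sun.Z7588.C35
import Pool.Agent.H495.Sun.Z7588.C36
import Pool.Agent.H495.Sun.Z7588.C37
import Pool.Agent.H495.Sun.Z7588.C38
import Pool.Agent.H495.Sun.Z7588.C39
import Pool.Agent.H495.Sun.Z7588.C40
import Pool.Agent.H495.Sun.Z7588.C41
import Pool.Agent.H495.Sun.Z7588.C42
import Pool.Agent.H495.Sun.Z7588.C43
import Pool.Agent.H495.Sun.Z7588.C44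
import Pool.Agent.H495.Sun.Z7588.C45
import Pool.Agent.H495.Sun.Z7588.C46
import Pool.Agent.H495.Sun.Z7588.C47
import Pool.Agent.H495.Sun.Z7588.C48
import Pool.Agent.H495.Sun.Z7588.C49
import Pool.Agent.H495.Sun.Z7588.C50
import Pool.Agent.H495.Sun.Z7588.C51
import Pool.Agent.H495.Sun.Z7588.C52
import Pool.Agent.H495.Sun.Z7588.C53
import Pool.Agent.H495.Sun.Z7588.C54
import Pool.Agent.H495.Sun.Z7588.C55
import Pool.Agent.H495.Sun.Z7588.C56
import Pool.Agent.H495.Sun.Z7588.C57
import Pool.Agent.H495.Sun.Z7588.C58
import Pool.Agent.H495.Sun.Z7588.C59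
import Pool.Agent.H495.Sun.Z7588.C60
import Pool.Agent.H495.Sun.Z7588.C61
import Pool.Agent.H495.Sun.Z7588.C62
import Pool.Agent.H495.Sun.Z7588.C63

set_option autoImplicit false

/-!
# A counterexample: `n = 7588`

For no integer `k` with `0 < k < 7588` is `k * (k + 1) ^ φ(7588 - k) + 1` a prime number. The
kernel checks for each `k` either a proper divisor of this number or that it fails the Fermat test
with base `2` (1270 of the numbers, with up to about 65000 binary digits).
-/

namespace Pool.Agent.Results.MP_18f1ec_nt.Counterexample7588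

open Pool.Agent.H495.Sun Pool.Agent.H495.Sun.Z7588

/-- **Theorem.** There is an integer `n > 1` (namely `n = 7588`) such that
`k * (k + 1) ^ φ(n - k) + 1` is not a prime number for any integer `k` with `0 < k < n`. -/
theorem result : ∃ n : ℕ, 1 < n ∧ ∀ k : ℕ, 0 < k → k < n →
    ¬ (k * (k + 1) ^ (Nat.totient (n - k)) + 1).Prime := by
  refine ⟨7588, by norm_num, fun k hk0 hk => ?_⟩
  change ¬ (num 7588 k).Prime
  by_cases h137 : k < 137
  · exact rng_1 k (by omega) h137
  by_cases h200 : k < 200
  · exact rng_137 k (by omega) h200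
  by_cases h335 : k < 335
  · exact rng_200 k (by omega) h335
  by_cases h407 : k < 407
  · exact rng_335 k (by omega) h407
  by_cases h464 : k < 464
  · exact rng_407 k (by omega) h464
  by_cases h543 : k < 543
  · exact rng_464 k (by omega) h543
  by_cases h597 : k < 597
  · exact rng_543 k (by omega) h597
  by_cases h675 : k < 675
  · exact rng_597 k (by omega) h675
  by_cases h717 : k < 717
  · exact rng_675 k (by omega) h717
  by_cases h759 : k < 759
  · exact rng_717 k (by omega) h759
  by_cases h795 : k < 795
  · exact rng_759 k (by omega) h795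
  by_cases h862 : k < 862
  · exact rng_795 k (by omega) h862
  by_cases h943 : k < 943
  · exact rng_862 k (by omega) h943
  by_cases h1004 : k < 1004
  · exact rng_943 k (by omega) h1004
  by_cases h1099 : k < 1099
  · exact rng_1004 k (by omega) h1099
  by_cases h1142 : k < 1142
  · exact rng_1099 k (by omega) h1142
  by_cases h1193 : k < 1193
  · exact rng_1142 k (by omega) h1193
  by_cases h1252 : k < 1252
  · exact rng_1193 k (by omega) h1252
  by_cases h1299 : k < 1299
  · exact rng_1252 k (by omega) h1299
  by_cases h1367 : k < 1367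
  · exact rng_1299 k (by omega) h1367
  by_cases h1422 : k < 1422
  · exact rng_1367 k (by omega) h1422
  by_cases h1451 : k < 1451
  · exact rng_1422 k (by omega) h1451
  by_cases h1469 : k < 1469
  · exact rng_1451 k (by omega) h1469
  by_cases h1497 : k < 1497
  · exact rng_1469 k (by omega) h1497
  by_cases h1529 : k < 1529
  · exact rng_1497 k (by omega) h1529
  by_cases h1577 : k < 1577
  · exact rng_1529 k (by omega) h1577
  by_cases h1620 : k < 1620
  · exact rng_1577 k (by omega) h1620
  by_cases h1681 : k < 1681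
  · exact rng_1620 k (by omega) h1681
  by_cases h1807 : k < 1807
  · exact rng_1681 k (by omega) h1807
  by_cases h1895 : k < 1895
  · exact rng_1807 k (by omega) h1895
  by_cases h1923 : k < 1923
  · exact rng_1895 k (by omega) h1923
  by_cases h1971 : k < 1971
  · exact rng_1923 k (by omega) h1971
  by_cases h2034 : k < 2034
  · exact rng_1971 k (by omega) h2034
  by_cases h2105 : k < 2105
  · exact rng_2034 k (by omega) h2105
  by_cases h2248 : k < 2248
  · exact rng_2105 k (by omega) h2248
  by_cases h2271 : k < 2271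
  · exact rng_2248 k (by omega) h2271
  by_cases h2309 : k < 2309
  · exact rng_2271 k (by omega) h2309
  by_cases h2348 : k < 2348
  · exact rng_2309 k (by omega) h2348
  by_cases h2431 : k < 2431
  · exact rng_2348 k (by omega) h2431
  by_cases h2509 : k < 2509
  · exact rng_2431 k (by omega) h2509
  by_cases h2595 : k < 2595
  · exact rng_2509 k (by omega) h2595
  by_cases h2683 : k < 2683
  · exact rng_2595 k (by omega) h2683
  by_cases h2767 : k < 2767
  · exact rng_2683 k (by omega) h2767
  by_cases h2884 : k < 2884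
  · exact rng_2767 k (by omega) h2884
  by_cases h2960 : k < 2960
  · exact rng_2884 k (by omega) h2960
  by_cases h3065 : k < 3065
  · exact rng_2960 k (by omega) h3065
  by_cases h3145 : k < 3145
  · exact rng_3065 k (by omega) h3145
  by_cases h3223 : k < 3223
  · exact rng_3145 k (by omega) h3223
  by_cases h3291 : k < 3291
  · exact rng_3223 k (by omega) h3291
  by_cases h3363 : k < 3363
  · exact rng_3291 k (by omega) h3363
  by_cases h3513 : k < 3513
  · exact rng_3363 k (by omega) h3513
  by_cases h3642 : k < 3642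
  · exact rng_3513 k (by omega) h3642
  by_cases h3749 : k < 3749
  · exact rng_3642 k (by omega) h3749
  by_cases h3872 : k < 3872
  · exact rng_3749 k (by omega) h3872
  by_cases h4019 : k < 4019
  · exact rng_3872 k (by omega) h4019
  by_cases h4166 : k < 4166
  · exact rng_4019 k (by omega) h4166
  by_cases h4399 : k < 4399
  · exact rng_4166 k (by omega) h4399
  by_cases h4547 : k < 4547
  · exact rng_4399 k (by omega) h4547
  by_cases h4675 : k < 4675
  · exact rng_4547 k (by omega) h4675
  by_cases h4889 : k < 4889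
  · exact rng_4675 k (by omega) h4889
  by_cases h5099 : k < 5099
  · exact rng_4889 k (by omega) h5099
  by_cases h5386 : k < 5386
  · exact rng_5099 k (by omega) h5386
  by_cases h6075 : k < 6075
  · exact rng_5386 k (by omega) h6075
  exact rng_6075 k (by omega) hk

end Pool.Agent.Results.MP_18f1ec_nt.Counterexample7588
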